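import Pool.Agent.Q77.DP.Val

/-! JOB PHI of the project DP: the divisor of `phi`. -/

set_option autoImplicit false
set_option linter.unusedSectionVars false

namespace Pool.Agent.Q77.DP

open MvPolynomial FF Pool.Agent.W603.LV Pool.Agent.TH145.GH Pool.Agent.Y166.DP Pool.Agent.Q35.DP

theorem phi : StmInf → StmPts → StmPhi := by
  intro hInf hPts k K _ _ _ _ _ _ lam x y hE o ho α β γ hβ hγ h0 hσ
  obtain ⟨o', hox, hoy, hreg⟩ := hInf k K lam x y hE
  obtain ⟨hP1, hP2, hP3⟩ := hPts k K lam x y hE
  have hx0 : x ≠ 0 := Ell.x0 hE
  have hy0 : y ≠ 0 := Ell.y0 hE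
  have hoo : o = o' := by
    by_contra hne
    rcases (hreg o hne).1 with h | h
    · exact hx0 h
    · omega
  subst hoo
  have hα0 : α ≠ 0 := fun h => h0 (by rw [h]; ring)
  have hβ0 : β ≠ 0 := fun h => h0 (by rw [h]; ring)
  have hγ0 : γ ≠ 0 := fun h => h0 (by rw [h]; ring)
  have h1 : α + β ≠ 0 := by
    intro h
    have : β ^ 2 = α ^ 2 := by
      have : β = -α := by linear_combination h
      rw [this]; ring
    rw [this] at hβ
    exact one_ne_zero (α := k) (by linear_combination hβ)
  have h2 : α + γ ≠ 0 := by
    intro h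
    have : γ ^ 2 = α ^ 2 := by
      have : γ = -α := by linear_combination h
      rw [this]; ring
    rw [this] at hγ
    exact hE.lam0 (by linear_combination hγ)
  have h3 : β + γ ≠ 0 := by
    intro h
    have : γ ^ 2 = β ^ 2 := by
      have : γ = -β := by linear_combination h
      rw [this]; ring
    rw [this, hβ] at hγ
    exact hE.lam1 (by linear_combination hγ)
  have hpx0 : px α β γ ≠ 0 := mul_ne_zero h1 h2
  have hpy0 : py α β γ ≠ 0 := mul_ne_zero (mul_ne_zero h1 h2) h3
  have epx : px α β γ = α ^ 2 + (α * β + α * γ + β * γ) := by unfold px; ring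
  have epy : py α β γ = (α + β + γ) * (α * β + α * γ + β * γ) - α * β * γ := by
    unfold py; ring
  set σ := α * β + α * γ + β * γ with hσd
  set s := α + β + γ with hsd
  have c1 : (α * β * γ) ^ 2 = α ^ 2 * (α ^ 2 - 1) * (α ^ 2 - lam) := by
    rw [← hβ, ← hγ]; ring
  have c2 : (py α β γ) ^ 2 = px α β γ * (px α β γ - 1) * (px α β γ - lam) := by
    have e1 : px α β γ - 1 = (α + β) * (β + γ) := by
      unfold px; linear_combination (-1 : k) * hβ
    have e2 : px α β γ - lam = (α + γ) * (β + γ) := by
      unfold px; linear_combination (-1 : k) * hγ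
    rw [e1, e2]; unfold py px; ring
  obtain ⟨p, hpx, hpy⟩ := hP2 _ _ c1
  obtain ⟨p', hpx', hpy'⟩ := hP2 _ _ c2
  set A := algebraMap k K with hA
  -- the functions
  set X := x - A (α ^ 2) with hX
  set N := y + A (α * β * γ) - A s * X with hN
  set M := y - A (α * β * γ) + A s * X with hM
  have hphi : Pool.Agent.Y166.DP.phi x y α β γ = N / X := rfl
  have hX0 : X ≠ 0 := Ell.x_ne hE _
  have hXs0 : X - A σ ≠ 0 := by
    have := Ell.x_ne hE (px α β γ)
    rw [epx, map_add] at this
    rw [hX, sub_sub]
    exact this
  have hmul : N * M = X * (X - A σ) ^ 2 := by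
    have e1 : x = X + A (α ^ 2) := by rw [hX]; ring
    have e2 : x - 1 = X + A (β ^ 2) := by
      rw [hβ, map_sub, map_one, e1]; ring
    have e3 : x - A lam = X + A (γ ^ 2) := by
      rw [hγ, map_sub, e1]; ring
    have e4 := hE.eqn
    rw [e2, e3, e1] at e4
    have : N * M = y ^ 2 - (A (α * β * γ) - A s * X) ^ 2 := by rw [hN, hM]; ring
    rw [this, e4, hσd, hsd]
    simp only [map_mul, map_add, map_pow]
    ring
  have hN0 : N ≠ 0 := by
    intro h
    rw [h, zero_mul] at hmul
    exact mul_ne_zero hX0 (pow_ne_zero 2 hXs0) hmul.symm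
  have hM0 : M ≠ 0 := by
    intro h
    rw [h, mul_zero] at hmul
    exact mul_ne_zero hX0 (pow_ne_zero 2 hXs0) hmul.symm
  have two0 : (2 : k) ≠ 0 := two_ne_zero
  have hne_o : ∀ (P : Place k K) (a : k), Ge P 1 (x - A a) → P ≠ o := by
    intro P a h hPo
    rw [hPo] at h
    have : Ge o 0 x := Vl.ge0 (c := a) h
    rcases this with h | h
    · exact hx0 h
    · omega
  -- order of the product formula
  have hord : ∀ P : Place k K, P.ord N + P.ord M = P.ord X + 2 * P.ord (X - A σ) := by
    intro P
    rw [← P.ord_mul hN0 hM0, hmul, P.ord_mul hX0 (pow_ne_zero 2 hXs0), P.ord_pow]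
    push_cast
    ring
  have hphio : ∀ P : Place k K, P.ord (N / X) = P.ord N - P.ord X := fun P =>
    P.ord_div hN0 hX0
  -- values
  have vX : ∀ (P : Place k K) (a : k), Vl P x a → Vl P X (a - α ^ 2) := fun P a h =>
    h.sub (Vl.const _)
  have vN : ∀ (P : Place k K) (a b : k), Vl P x a → Vl P y b →
      Vl P N (b + α * β * γ - s * (a - α ^ 2)) := fun P a b h h' =>
    (h'.add (Vl.const _)).sub ((Vl.const _).mul (vX P a h))
  have vM : ∀ (P : Place k K) (a b : k), Vl P x a → Vl P y b →
      Vl P M (b - α * β * γ + s * (a - α ^ 2)) := fun P a b h h' =>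
    (h'.sub (Vl.const _)).add ((Vl.const _).mul (vX P a h))
  have vXs : ∀ (P : Place k K) (a : k), Vl P x a → Vl P (X - A σ) (a - α ^ 2 - σ) := fun P a h =>
    (vX P a h).sub (Vl.const _)
  refine ⟨p, p', hne_o p _ hpx, hne_o p' _ hpx', ?_, hpx, hpy, hpx', hpy', ?_, ?_⟩
  · intro h
    rw [h] at hpx
    have := Vl.eq (c := α ^ 2) (d := px α β γ) hpx hpx'
    rw [epx] at this
    exact hσ (by linear_combination (-1 : k) * this)
  · rw [hphi]
    exact div_ne_zero hN0 hX0
  · intro P
    rw [hphi, hphio]
    refine ⟨?_, ?_, ?_, ?_⟩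
    · rintro rfl
      have a1 := (vX P _ hpx').ord0 (by rw [epx]; simpa using hσ)
      have a2 := (vM P _ _ hpx' hpy').ord0 (by
        have : py α β γ - α * β * γ + s * (px α β γ - α ^ 2) = 2 * py α β γ := by
          linear_combination s * epx - epy
        rw [this]
        exact mul_ne_zero two0 hpy0)
      have a3 := (hP3 _ _ P hpx' hpy').2.1 hpy0
      have a4 : X - A σ = x - A (px α β γ) := by
        rw [epx, map_add A (α ^ 2) σ, ← sub_sub]
      have := hord P
      rw [a4, a3, a1.2, a2.2] at this
      rw [a1.2]
      omega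
    · rintro rfl
      have a1 := (vN P _ _ hpx hpy).ord0 (by
        have : α * β * γ + α * β * γ - s * (α ^ 2 - α ^ 2) = 2 * (α * β * γ) := by ring
        rw [this]
        exact mul_ne_zero two0 h0)
      have a2 := (hP3 _ _ P hpx hpy).2.1 h0
      rw [a1.2]
      have a3 : P.ord X = 1 := a2
      rw [a3]
      norm_num
    · rintro rfl
      have a1 : P.ord X = -2 := by
        have e : X = x + A (-(α ^ 2)) := by rw [hX, map_neg]; ring
        have hc : A (-(α ^ 2)) ≠ 0 := by
          intro h
          exact neg_ne_zero.2 (pow_ne_zero 2 hα0) ((map_eq_zero _).1 h)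
        rw [e, (P.ord_add_eq hx0 hc ?_).2, hox]
        rw [hox, P.ord_const (neg_ne_zero.2 (pow_ne_zero 2 hα0))]
        norm_num
      have a2 : P.ord N = -3 := by
        have e : N = y + (A (α * β * γ) - A s * X) := by rw [hN]; ring
        have g1 : Ge P (-2) (A (α * β * γ) - A s * X) := by
          refine Ge.sub ((Ge.const _).mono (by norm_num)) ?_
          have := (Ge.const (P := P) s).mul (Or.inr a1.ge : Ge P (-2) X)
          rwa [zero_add] at this
        by_cases h : A (α * β * γ) - A s * X = 0
        · rw [e, h, add_zero, hoy]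
        · have := g1.resolve_left h
          rw [e, (P.ord_add_eq hy0 h ?_).2, hoy]
          rw [hoy]
          omega
      rw [a1, a2]
      norm_num
    · intro n1 n2 n3
      obtain ⟨hgx, hgy⟩ := hreg P n3
      obtain ⟨a, b, hab, hxa, hyb⟩ := hP1 P hgx
      have uN := (vN P a b hxa hyb).ge0
      have uM := (vM P a b hxa hyb).ge0
      by_cases ha : a = α ^ 2
      · have hb : (b - α * β * γ) * (b + α * β * γ) = 0 := by
          rw [ha, ← c1] at hab
          linear_combination hab
        rcases mul_eq_zero.1 hb with hb | hb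
        · exfalso
          have hb' : b = α * β * γ := by linear_combination hb
          rw [ha] at hxa
          rw [hb'] at hyb
          exact n2 ((hP3 _ _ p hpx hpy).1 P hxa hyb)
        · have hb' : b = -(α * β * γ) := by linear_combination hb
          have a1 := (vM P _ _ hxa hyb).ord0 (by
            have : b - α * β * γ + s * (a - α ^ 2) = -(2 * (α * β * γ)) := by
              rw [hb', ha]; ring
            rw [this]
            exact neg_ne_zero.2 (mul_ne_zero two0 h0))
          have a2 := (vXs P _ hxa).ord0 (by rw [ha]; simpa using hσ)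
          have := hord P
          rw [a1.2, a2.2] at this
          omega
      · have a0 := (vX P _ hxa).ord0 (sub_ne_zero.2 ha)
        rw [a0.2, sub_zero]
        by_cases ha' : a = px α β γ
        · have hb : (b - py α β γ) * (b + py α β γ) = 0 := by
            rw [ha', ← c2] at hab
            linear_combination hab
          rcases mul_eq_zero.1 hb with hb | hb
          · exfalso
            have hb' : b = py α β γ := by linear_combination hb
            rw [ha'] at hxa
            rw [hb'] at hyb
            exact n1 ((hP3 _ _ p' hpx' hpy').1 P hxa hyb)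
          · have hb' : b = -(py α β γ) := by linear_combination hb
            exact ((vN P _ _ hxa hyb).ord0 (by
              have : b + α * β * γ - s * (a - α ^ 2) = -(2 * py α β γ) := by
                rw [hb', ha']; linear_combination (-s) * epx + epy
              rw [this]
              exact neg_ne_zero.2 (mul_ne_zero two0 hpy0))).2
        · have a2 := (vXs P _ hxa).ord0 (by
            intro h
            apply ha'
            rw [epx]
            linear_combination h)
          apply ord_zero_of_mul uN uM hN0 hM0
          rw [P.ord_mul hN0 hM0]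
          have := hord P
          rw [a0.2, a2.2] at this
          omega

end Pool.Agent.Q77.DP
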