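import Pool.Agent.Q77.DP.Val

/-! JOB UU of the project DP: orders of the functions `uu`. -/

set_option autoImplicit false
set_option linter.unusedSectionVars false

namespace Pool.Agent.Q77.DP

open MvPolynomial FF Pool.Agent.W603.LV Pool.Agent.TH145.GH Pool.Agent.Y166.DP Pool.Agent.Q35.DP

section
variable {k K : Type} [Field k] [Field K] [Algebra k K] {P : Place k K} {x y : K}

/-- Values of the functions `fn`. -/
theorem Vl.fn {a b : k} (hx : Vl P x a) (hy : Vl P y b) (j : ℕ) :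
    Vl P (fn x y j) (Pool.Agent.Y166.DP.fn a b j) := by
  unfold Pool.Agent.Y166.DP.fn
  split_ifs
  · exact Vl.one
  · exact hx.pow _
  · exact (hx.pow _).mul hy

theorem ge_fn_o (hx : P.ord x = -2) (hy : P.ord y = -3) (j : ℕ) :
    Ge P (-((j : ℤ) + 1)) (fn x y j) := by
  have gx : Ge P (-2) x := Or.inr hx.ge
  have gy : Ge P (-3) y := Or.inr hy.ge
  unfold Pool.Agent.Y166.DP.fn
  split_ifs with h1 h2
  · exact Ge.one.mono (by omega)
  · refine (gx.pow _).mono ?_
    have : 2 * ((j + 1) / 2) = j + 1 := by omega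
    have : 2 * (((j + 1) / 2 : ℕ) : ℤ) = (j : ℤ) + 1 := by exact_mod_cast this
    linarith
  · refine ((gx.pow _).mul gy).mono ?_
    have : 2 * ((j - 2) / 2) + 2 = j := by omega
    have : 2 * (((j - 2) / 2 : ℕ) : ℤ) + 2 = (j : ℤ) := by exact_mod_cast this
    linarith

theorem Vl.sum0 {m : ℕ} (r : Fin m → k) (F : Fin m → K) (h : ∀ j, Vl P (F j) 0) :
    Ge P 1 (∑ j, algebraMap k K (r j) * F j) := by
  refine Ge.sum _ _ fun j _ => ?_
  have := (Ge.const (P := P) (r j)).mul (h j).ge1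
  rwa [zero_add] at this

theorem ge_sum0 {m : ℕ} {N : ℤ} (r : Fin m → k) (F : Fin m → K) (h : ∀ j, Ge P N (F j)) :
    Ge P N (∑ j, algebraMap k K (r j) * F j) := by
  refine Ge.sum _ _ fun j _ => ?_
  have := (Ge.const (P := P) (r j)).mul (h j)
  rwa [zero_add] at this

end

theorem fn00 {k : Type} [Field k] (j : ℕ) : Pool.Agent.Y166.DP.fn (0 : k) 0 (j + 2) = 0 := by
  unfold Pool.Agent.Y166.DP.fn
  rw [if_neg (by omega)]
  split_ifs
  · exact zero_pow (by omega)
  · exact mul_zero _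

theorem uu : StmInf → StmPts → StmPhi → StmUU := by
  intro hInf hPts hPhi k K _ _ _ _ _ _ lam x y hE o ho α β γ hβ hγ h0 hσ m r s
  obtain ⟨o', hox, hoy, hreg⟩ := hInf k K lam x y hE
  obtain ⟨hP1, hP2, hP3⟩ := hPts k K lam x y hE
  obtain ⟨p, p', hpo, hpo', hpp', hpx, hpy, hpx', hpy', hphi0, hall⟩ :=
    hPhi k K lam x y hE o ho α β γ hβ hγ h0 hσ
  have hx0 : x ≠ 0 := Ell.x0 hE
  have hoo : o = o' := by
    by_contra hne
    rcases (hreg o hne).1 with h | h
    · exact hx0 h
    · omega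
  subst hoo
  have hα0 : α ≠ 0 := fun h => h0 (by rw [h]; ring)
  have h1 : α + β ≠ 0 := by
    intro h
    have : β ^ 2 = α ^ 2 := by
      have : β = -α := by linear_combination h
      rw [this]; ring
    rw [this] at hβ
    exact one_ne_zero (α := k) (by linear_combination hβ)
  have h2 : α + γ ≠ 0 := by
    intro h
    have : γ ^ 2 = α ^ 2 := by
      have : γ = -α := by linear_combination h
      rw [this]; ring
    rw [this] at hγ
    exact hE.lam0 (by linear_combination hγ)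
  have hpx0 : px α β γ ≠ 0 := mul_ne_zero h1 h2
  set Φ := Pool.Agent.Y166.DP.phi x y α β γ with hΦ
  set A := algebraMap k K with hA
  set R := r0 x y α β γ r with hR
  set S := r1 x y α β γ s with hS
  have hu0 : Pool.Agent.Y166.DP.uu x y α β γ r s 0 = R ^ 2 / Φ := rfl
  have hu1 : Pool.Agent.Y166.DP.uu x y α β γ r s 1 = S ^ 2 / (x * Φ) := rfl
  have hxΦ : x * Φ ≠ 0 := mul_ne_zero hx0 hphi0
  -- regularity
  have regR : ∀ P, P ≠ o → Ge P 0 R := by
    intro P hP
    obtain ⟨hgx, hgy⟩ := hreg P hP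
    obtain ⟨a, b, hab, hxa, hyb⟩ := hP1 P hgx
    refine ge_sum0 r _ fun j => ?_
    exact (Vl.sub (Vl.fn hxa hyb (j + 1)) (Vl.const _)).ge0
  have regS : ∀ P, P ≠ o → Ge P 0 S := by
    intro P hP
    obtain ⟨hgx, hgy⟩ := hreg P hP
    obtain ⟨a, b, hab, hxa, hyb⟩ := hP1 P hgx
    refine ge_sum0 s _ fun j => ?_
    exact (Vl.sub (Vl.fn hxa hyb (j + 2)) ((Vl.const _).mul hxa)).ge0
  have R' : Ge p' 1 R := by
    refine Vl.sum0 r _ fun j => ?_
    exact (Vl.sub (Vl.fn hpx' hpy' (j + 1)) (Vl.const _)).congr (sub_self _)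
  have S' : Ge p' 1 S := by
    refine Vl.sum0 s _ fun j => ?_
    refine (Vl.sub (Vl.fn hpx' hpy' (j + 2)) ((Vl.const _).mul hpx')).congr ?_
    rw [div_mul_cancel₀ _ hpx0, sub_self]
  have S0 : ∀ P : Place k K, Vl P x 0 → Vl P y 0 → Ge P 1 S := by
    intro P hx hy
    refine Vl.sum0 s _ fun j => ?_
    refine (Vl.sub (Vl.fn hx hy (j + 2)) ((Vl.const _).mul hx)).congr ?_
    rw [fn00]; ring
  have hppU : ∀ P : Place k K, Ge P 1 (x - A (α ^ 2)) → Ge P 1 (y - A (α * β * γ)) → P = p :=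
    fun P hx hy => (hP3 _ _ p hpx hpy).1 P hx hy
  have ordxp : p.ord x = 0 := (Vl.ord0 (c := α ^ 2) hpx (pow_ne_zero 2 hα0)).2
  have ordxp' : p'.ord x = 0 := (Vl.ord0 (c := px α β γ) hpx' hpx0).2
  -- orders of the denominators
  have hdiv0 : ∀ P : Place k K, P ≠ o → ∀ N : ℤ, Ge P N R →
      Ge P (2 * N - P.ord Φ) (R ^ 2 / Φ) := by
    intro P hP N hN
    have := ge_div (hN.pow 2) hphi0 (rfl : P.ord Φ = P.ord Φ)
    exact_mod_cast this
  have hdiv1 : ∀ P : Place k K, ∀ N : ℤ, Ge P N S →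
      Ge P (2 * N - (P.ord x + P.ord Φ)) (S ^ 2 / (x * Φ)) := by
    intro P N hN
    have := ge_div (hN.pow 2) hxΦ (P.ord_mul hx0 hphi0)
    exact_mod_cast this
  have c3p : Ge p 1 (R ^ 2 / Φ) ∧ Ge p 1 (S ^ 2 / (x * Φ)) := by
    have e := (hall p).2.1 rfl
    refine ⟨?_, ?_⟩
    · have := hdiv0 p hpo 0 (regR p hpo)
      rw [e] at this
      exact this.mono (by norm_num)
    · have := hdiv1 p 0 (regS p hpo)
      rw [e, ordxp] at this
      exact this.mono (by norm_num)
  have c1 : ∀ P, P ≠ o → Ge P 0 (R ^ 2 / Φ) ∧ Ge P 0 (S ^ 2 / (x * Φ)) := by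
    intro P hP
    by_cases e1 : P = p
    · rw [e1]
      exact ⟨c3p.1.mono (by norm_num), c3p.2.mono (by norm_num)⟩
    by_cases e2 : P = p'
    · rw [e2]
      have e := (hall p').1 rfl
      refine ⟨?_, ?_⟩
      · have := hdiv0 p' hpo' 1 R'
        rw [e] at this
        exact this.mono (by norm_num)
      · have := hdiv1 p' 1 S'
        rw [e, ordxp'] at this
        exact this.mono (by norm_num)
    · have e := (hall P).2.2.2 e2 e1 hP
      refine ⟨?_, ?_⟩
      · have := hdiv0 P hP 0 (regR P hP)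
        rw [e] at this
        exact this.mono (by norm_num)
      · obtain ⟨hgx, hgy⟩ := hreg P hP
        obtain ⟨a, b, hab, hxa, hyb⟩ := hP1 P hgx
        by_cases ha : a = 0
        · have hb : b = 0 := by
            rw [ha] at hab
            have : b ^ 2 = 0 := by rw [hab]; ring
            exact pow_eq_zero_iff (two_ne_zero) |>.1 this
          rw [ha] at hxa
          rw [hb] at hyb
          have hx2 : P.ord x = 2 := by
            have := ((hP3 0 0 P hxa hyb).2.2 rfl).2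
            rwa [map_zero, sub_zero] at this
          have := hdiv1 P 1 (S0 P hxa hyb)
          rw [e, hx2] at this
          exact this.mono (by norm_num)
        · have hx0' : P.ord x = 0 := (Vl.ord0 (c := a) hxa ha).2
          have := hdiv1 P 0 (regS P hP)
          rw [e, hx0'] at this
          exact this.mono (by norm_num)
  have eo := (hall o).2.2.1 rfl
  have Ro : Ge o (-((m : ℤ) + 1)) R := by
    refine ge_sum0 r _ fun j => ?_
    have hj : (j : ℕ) + 1 ≤ m := j.2
    refine Ge.sub ((ge_fn_o hox hoy _).mono ?_) ((Ge.const _).mono ?_)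
    · push_cast
      have : ((j : ℕ) : ℤ) + 1 ≤ m := by exact_mod_cast hj
      linarith
    · have : (0 : ℤ) ≤ m := Int.natCast_nonneg m
      linarith
  have So : Ge o (-((m : ℤ) + 2)) S := by
    refine ge_sum0 s _ fun j => ?_
    have hj : (j : ℕ) + 1 ≤ m := j.2
    have hj' : ((j : ℕ) : ℤ) + 1 ≤ m := by exact_mod_cast hj
    refine Ge.sub ((ge_fn_o hox hoy _).mono ?_) ?_
    · push_cast
      linarith
    · have := (Ge.const (P := o) (Pool.Agent.Y166.DP.fn (px α β γ) (py α β γ) (j + 2) /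
        px α β γ)).mul (Or.inr hox.ge : Ge o (-2) x)
      exact this.mono (by linarith)
  have c2 : Ge o (-(2 * m + 1 : ℤ)) (R ^ 2 / Φ) ∧ Ge o (-(2 * m + 1 : ℤ)) (S ^ 2 / (x * Φ)) := by
    refine ⟨?_, ?_⟩
    · have := ge_div (Ro.pow 2) hphi0 eo
      refine this.mono ?_
      push_cast
      linarith
    · have := hdiv1 o _ So
      rw [eo, hox] at this
      refine this.mono ?_
      linarith
  intro i
  fin_cases i
  · refine ⟨fun P hP => (c1 P hP).1, c2.1, fun P hx hy => ?_⟩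
    rw [hppU P hx hy]
    exact c3p.1
  · refine ⟨fun P hP => (c1 P hP).2, c2.2, fun P hx hy => ?_⟩
    rw [hppU P hx hy]
    exact c3p.2

end Pool.Agent.Q77.DP
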