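import Pool.Agent.Q35.DP.Plan

/-! Values of functions at a place, and orders of quotients. -/

set_option autoImplicit false
set_option linter.unusedSectionVars false

namespace Pool.Agent.Q77.DP

open MvPolynomial FF Pool.Agent.W603.LV Pool.Agent.TH145.GH Pool.Agent.Y166.DP Pool.Agent.Q35.DP

section
variable {k K : Type} [Field k] [Field K] [Algebra k K]

/-- `f` has the value `c` at `P`. -/
def Vl (P : Place k K) (f : K) (c : k) : Prop := Ge P 1 (f - algebraMap k K c)

variable {P : Place k K} {f g : K} {c d : k}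

theorem Vl.ge0 (h : Vl P f c) : Ge P 0 f := by
  have h1 : Ge P 0 (f - algebraMap k K c) := Ge.mono (by norm_num) h
  have h2 := h1.add (Ge.const (P := P) c)
  rwa [sub_add_cancel] at h2

theorem Vl.const (c : k) : Vl P (algebraMap k K c) c := by
  unfold Vl
  rw [sub_self]
  exact Ge.zero

theorem Vl.add (h : Vl P f c) (h' : Vl P g d) : Vl P (f + g) (c + d) := by
  have := Ge.add h h'
  unfold Vl
  rw [map_add]
  convert this using 1
  ring

theorem Vl.neg (h : Vl P f c) : Vl P (-f) (-c) := by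
  have := Ge.neg h
  unfold Vl
  rw [map_neg]
  convert this using 1
  ring

theorem Vl.sub (h : Vl P f c) (h' : Vl P g d) : Vl P (f - g) (c - d) := by
  have := h.add h'.neg
  rwa [← sub_eq_add_neg, ← sub_eq_add_neg] at this

theorem Vl.mul (h : Vl P f c) (h' : Vl P g d) : Vl P (f * g) (c * d) := by
  have h1 := Ge.mul h.ge0 h'
  have h2 := Ge.mul (Ge.const (P := P) d) h
  unfold Vl
  rw [map_mul]
  have h3 := h1.add h2
  rw [zero_add] at h3
  convert h3 using 1
  ring

theorem Vl.one : Vl P (1 : K) 1 := by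
  have := Vl.const (P := P) (1 : k)
  rwa [map_one] at this

theorem Vl.pow (h : Vl P f c) (n : ℕ) : Vl P (f ^ n) (c ^ n) := by
  induction n with
  | zero =>
    rw [pow_zero, pow_zero]
    exact Vl.one
  | succ n ih =>
    rw [pow_succ, pow_succ]
    exact ih.mul h

theorem Vl.congr {e : k} (h : Vl P f c) (he : c = e) : Vl P f e := he ▸ h

theorem Vl.ge1 (h : Vl P f 0) : Ge P 1 f := by
  unfold Vl at h
  rwa [map_zero, sub_zero] at h

theorem Vl.of_ge1 (h : Ge P 1 f) : Vl P f 0 := by
  unfold Vl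
  rwa [map_zero, sub_zero]

theorem Vl.ord0 (h : Vl P f c) (hc : c ≠ 0) : f ≠ 0 ∧ P.ord f = 0 := by
  have hA : algebraMap k K c ≠ 0 := by
    intro h0
    exact hc ((map_eq_zero _).1 h0)
  have e : f = algebraMap k K c + (f - algebraMap k K c) := by ring
  by_cases h1 : f - algebraMap k K c = 0
  · have e2 : f = algebraMap k K c := sub_eq_zero.1 h1
    rw [e2]
    exact ⟨hA, P.ord_const hc⟩
  · have h2 : 1 ≤ P.ord (f - algebraMap k K c) := Or.resolve_left h h1
    have h3 : P.ord (algebraMap k K c) < P.ord (f - algebraMap k K c) := by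
      rw [P.ord_const hc]; omega
    have h4 := P.ord_add_eq hA h1 h3
    rw [← e, P.ord_const hc] at h4
    exact h4

theorem Vl.eq (h : Vl P f c) (h' : Vl P f d) : c = d := by
  by_contra hne
  have h1 := h.sub h'
  rw [sub_self] at h1
  exact (h1.ord0 (sub_ne_zero.2 hne)).1 rfl

theorem ge_div {N m : ℤ} {f h : K} (hf : Ge P N f) (h0 : h ≠ 0) (hm : P.ord h = m) :
    Ge P (N - m) (f / h) := by
  have h1 : Ge P (-m) h⁻¹ := Or.inr (by rw [P.ord_inv, hm])
  have := hf.mul h1
  rwa [← div_eq_mul_inv, ← sub_eq_add_neg] at this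

theorem ord_zero_of_mul {f g : K} (hf : Ge P 0 f) (hg : Ge P 0 g) (f0 : f ≠ 0) (g0 : g ≠ 0)
    (h : P.ord (f * g) = 0) : P.ord f = 0 := by
  rw [P.ord_mul f0 g0] at h
  have h1 := hf.resolve_left f0
  have h2 := hg.resolve_left g0
  omega

end

end Pool.Agent.Q77.DP
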